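import Pool.Agent.Helper49.OT.Defs
import Mathlib.Topology.Homotopy.Lifting
import Mathlib.Topology.Algebra.Module.LocallyConvex

/-!
# `MP_398e1f_an`, Oeljeklaus–Toma example: lifts of `pr` to a finite cover (offer 405, OT-LIFT).
Core versions, with the continuity of `pr` and the fact that it is a local diffeomorphism as
hypotheses; the final forms are in `Pool/Agent/Helper67/OT/Lift.lean`.
-/

open scoped Manifold ContDiff Topology
open Set Filter

noncomputable section

namespace HolPH.OT

instance instSimplyConnectedX : SimplyConnectedSpace X := by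
  have : ContractibleSpace (X : Set C3) :=
    convex_X.contractibleSpace ⟨(Complex.I, 0, 0), by simp [mem_X]⟩
  exact (inferInstance : SimplyConnectedSpace (X : Set C3))

instance instLPCX : LocallyPathConnectedSpace X :=
  X.isOpen.locallyPathConnectedSpace

section congr

variable {𝕜 : Type*} [NontriviallyNormedField 𝕜]
  {E : Type*} [NormedAddCommGroup E] [NormedSpace 𝕜 E]
  {F : Type*} [NormedAddCommGroup F] [NormedSpace 𝕜 F]
  {H₁ : Type*} [TopologicalSpace H₁]
  {H₂ : Type*} [TopologicalSpace H₂]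
  {I : ModelWithCorners 𝕜 E H₁} {J : ModelWithCorners 𝕜 F H₂}
  {A : Type*} [TopologicalSpace A] [ChartedSpace H₁ A]
  {B : Type*} [TopologicalSpace B] [ChartedSpace H₂ B] {n : WithTop ℕ∞}

/-- Being a local diffeomorphism at `x` only depends on the germ. -/
theorem isLocalDiffeomorphAt_congr {f g : A → B} {x : A} (hf : IsLocalDiffeomorphAt I J n f x)
    (h : g =ᶠ[𝓝 x] f) : IsLocalDiffeomorphAt I J n g x := by
  obtain ⟨Φ, hx, heq⟩ := hf
  obtain ⟨s, hs, hso, hxs⟩ := _root_.mem_nhds_iff.1 h
  have hopen : IsOpen (Φ.source ∩ s) := Φ.open_source.inter hso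
  have himg : IsOpen (Φ.target ∩ Φ.invFun ⁻¹' s) :=
    Φ.contMDiffOn_invFun.continuousOn.isOpen_inter_preimage Φ.open_target hso
  refine ⟨{ toFun := Φ.toFun
            invFun := Φ.invFun
            source := Φ.source ∩ s
            target := Φ.target ∩ Φ.invFun ⁻¹' s
            map_source' := ?_
            map_target' := ?_
            left_inv' := ?_
            right_inv' := ?_
            open_source := hopen
            open_target := himg
            contMDiffOn_toFun := Φ.contMDiffOn_toFun.mono inter_subset_left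
            contMDiffOn_invFun := Φ.contMDiffOn_invFun.mono inter_subset_left }, ⟨hx, hxs⟩, ?_⟩
  · intro y hy
    refine ⟨Φ.map_source' hy.1, ?_⟩
    change Φ.invFun (Φ.toFun y) ∈ s
    rw [Φ.left_inv' hy.1]
    exact hy.2
  · intro y hy
    exact ⟨Φ.map_target' hy.1, hy.2⟩
  · intro y hy
    exact Φ.left_inv' hy.1
  · intro y hy
    exact Φ.right_inv' hy.1
  · intro y hy
    have h1 : g y = f y := hs hy.2
    rw [h1]
    exact heq hy.1

end congr

set_option linter.unusedSectionVars false

variable [IsCancelSMul Gam X] [ProperlyDiscontinuousSMul Gam X]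
  {M' : Type*} [TopologicalSpace M'] [ChartedSpace C3 M'] [IsManifold I3 ω M']
  {p : M' → M}

theorem exists_lift_core (pc : Continuous pr) (hp : IsFiniteCover p) (y : M') : ∃ (x : X) (q : X → M'),
    Continuous q ∧ (∀ x, p (q x) = pr x) ∧ q x = y := by
  obtain ⟨x, hx⟩ := pr_surjective (p y)
  obtain ⟨F, ⟨hF1, hF2⟩, -⟩ := hp.covering.existsUnique_continuousMap_lifts
    (⟨pr, pc⟩ : C(X, M)) x y hx.symm
  exact ⟨x, F, F.continuous, fun z => congrFun hF2 z, hF1⟩

theorem lift_localDiffeomorph_core (pl : IsLocalDiffeomorph I3 I3 ω pr) (hp : IsFiniteCover p) {q : X → M'} (hq : Continuous q)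
    (h : ∀ x, p (q x) = pr x) : IsLocalDiffeomorph I3 I3 ω q := by
  intro x
  have h1 := hp.localDiffeomorph (q x)
  have h2 : IsLocalDiffeomorphAt I3 I3 ω h1.localInverse (pr x) := by
    have := h1.localInverse_isLocalDiffeomorphAt
    rwa [h x] at this
  have h3 : IsLocalDiffeomorphAt I3 I3 ω (h1.localInverse ∘ pr) x :=
    IsLocalDiffeomorphAt.comp (K := I3) (P := M') (hf := pl x) (hg := h2)
  refine isLocalDiffeomorphAt_congr h3 ?_
  have h4 : ∀ᶠ z in 𝓝 x, q z ∈ h1.localInverse.target :=
    hq.continuousAt.eventually (h1.localInverse.open_target.mem_nhds h1.localInverse_mem_target)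
  filter_upwards [h4] with z hz
  change q z = h1.localInverse (pr z)
  rw [← h z]
  exact (h1.localInverse_left_inv hz).symm

theorem lift_period_core (hp : IsFiniteCover p) {q : X → M'} (hq : Continuous q)
    (h : ∀ x, p (q x) = pr x) : ∃ d : ℕ, 1 ≤ d ∧ ∀ (g : Gam) (x : X), q (g ^ d • x) = q x := by
  obtain ⟨x₀⟩ : Nonempty X := inferInstance
  set N : ℕ := (hp.finite (pr x₀)).toFinset.card with hN
  refine ⟨N.factorial, Nat.one_le_iff_ne_zero.2 (Nat.factorial_ne_zero N), fun g => ?_⟩
  -- two powers of `g` give the same lift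
  have hmem : ∀ i : ℕ, q (g ^ i • x₀) ∈ (hp.finite (pr x₀)).toFinset := by
    intro i
    rw [Set.Finite.mem_toFinset]
    change p (q (g ^ i • x₀)) = pr x₀
    rw [h, pr_smul]
  obtain ⟨i, hi, j, hj, hij, heq⟩ : ∃ i ∈ Finset.range (N + 1), ∃ j ∈ Finset.range (N + 1),
      i ≠ j ∧ q (g ^ i • x₀) = q (g ^ j • x₀) := by
    apply Finset.exists_ne_map_eq_of_card_lt_of_maps_to (t := (hp.finite (pr x₀)).toFinset)
    · rw [Finset.card_range, ← hN]
      exact Nat.lt_succ_self _
    · intro i _
      exact hmem i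
  have hcont : ∀ g' : Gam, Continuous fun x : X => q (g' • x) :=
    fun g' => hq.comp (continuous_const_smul g')
  -- wlog `i < j`
  have key : ∀ i j : ℕ, i < j → q (g ^ i • x₀) = q (g ^ j • x₀) →
      ∀ x : X, q (g ^ (j - i) • x) = q x := by
    intro i j hij heq
    have h1 : (fun x : X => q (g ^ i • x)) = fun x : X => q (g ^ j • x) := by
      refine hp.covering.eq_of_comp_eq (hcont _) (hcont _) ?_ x₀ heq
      funext x
      change p (q (g ^ i • x)) = p (q (g ^ j • x))
      rw [h, h, pr_smul, pr_smul]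
    intro x
    have h2 := congrFun h1 ((g ^ i)⁻¹ • x)
    simp only [smul_inv_smul] at h2
    rw [h2, smul_smul, ← pow_sub g hij.le]
  have hper : ∃ k : ℕ, 1 ≤ k ∧ k ≤ N ∧ ∀ x : X, q (g ^ k • x) = q x := by
    rw [Finset.mem_range] at hi hj
    rcases lt_or_gt_of_ne hij with hlt | hlt
    · exact ⟨j - i, by omega, by omega, key i j hlt heq⟩
    · exact ⟨i - j, by omega, by omega, key j i hlt heq.symm⟩
  obtain ⟨k, hk1, hkN, hk⟩ := hper
  have hmul : ∀ (m : ℕ) (x : X), q (g ^ (k * m) • x) = q x := by
    intro m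
    induction m with
    | zero => intro x; simp
    | succ m ih =>
      intro x
      rw [Nat.mul_succ, pow_add, mul_smul, ih, hk]
  obtain ⟨m, hm⟩ := Nat.dvd_factorial hk1 hkN
  intro x
  rw [hm]
  exact hmul m x

end HolPH.OT
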