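import Pool.Agent.Helper49.OT.Mfd
import Pool.Agent.Helper67.OT.LiftCore

/-!
# `MP_398e1f_an`, Oeljeklaus–Toma example: lifts of `pr` to a finite cover (offer 405, OT-LIFT)
-/

open scoped Manifold ContDiff Topology
open Set Filter

noncomputable section

namespace HolPH.OT

set_option linter.unusedSectionVars false

variable {M' : Type*} [TopologicalSpace M'] [ChartedSpace C3 M'] [IsManifold I3 ω M']
  {p : M' → M}

theorem exists_lift (hp : IsFiniteCover p) (y : M') : ∃ (x : X) (q : X → M'),
    Continuous q ∧ (∀ x, p (q x) = pr x) ∧ q x = y :=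
  exists_lift_core pr_continuous hp y

theorem lift_localDiffeomorph (hp : IsFiniteCover p) {q : X → M'} (hq : Continuous q)
    (h : ∀ x, p (q x) = pr x) : IsLocalDiffeomorph I3 I3 ω q :=
  lift_localDiffeomorph_core pr_localDiffeomorph hp hq h

theorem lift_period (hp : IsFiniteCover p) {q : X → M'} (hq : Continuous q)
    (h : ∀ x, p (q x) = pr x) : ∃ d : ℕ, 1 ≤ d ∧ ∀ (g : Gam) (x : X), q (g ^ d • x) = q x :=
  lift_period_core hp hq h

end HolPH.OT
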